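import Mathlib

set_option autoImplicit false

namespace Pool.Agent.Lib.MP_91d3dc_co

open Finset

/-! ### Exponential moments of sums of random subsets -/

/-- sum over the `m`-subsets `U` of `{0, ..., k-1}` of `exp (s * sum U)`. -/
noncomputable def T (s : ℝ) (k m : ℕ) : ℝ :=
  ∑ U ∈ powersetCard m (range k), Real.exp (s * ∑ u ∈ U, (u : ℝ))

lemma exp_le_quad {x : ℝ} (hx : |x| ≤ 1) : Real.exp x ≤ 1 + x + x ^ 2 := by
  have h := Real.abs_exp_sub_one_sub_id_le hx
  have := (abs_le.mp h).2
  linarith

lemma T_zero_right (s : ℝ) (k : ℕ) : T s k 0 = 1 := by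
  simp [T]

lemma T_zero_succ (s : ℝ) (m : ℕ) : T s 0 (m + 1) = 0 := by
  unfold T
  rw [Finset.powersetCard_eq_empty.mpr (by simp)]
  simp

lemma T_succ_succ (s : ℝ) (k m : ℕ) :
    T s (k + 1) (m + 1) = T s k (m + 1) + Real.exp (s * k) * T s k m := by
  unfold T
  rw [Finset.range_add_one, Finset.powersetCard_succ_insert (by simp), Finset.sum_union]
  · congr 1
    rw [Finset.sum_image]
    · rw [Finset.mul_sum]
      refine Finset.sum_congr rfl fun U hU => ?_
      have hk : k ∉ U := fun h => by
        have := (mem_powersetCard.mp hU).1 h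
        simp at this
      rw [Finset.sum_insert hk, mul_add, Real.exp_add]
    · intro U hU U' hU' h
      have hk : k ∉ U := fun h => by
        have := (mem_powersetCard.mp hU).1 h
        simp at this
      have hk' : k ∉ U' := fun h => by
        have := (mem_powersetCard.mp hU').1 h
        simp at this
      have := congrArg (fun W => W.erase k) h
      simpa [hk, hk'] using this
  · rw [Finset.disjoint_left]
    intro U hU hU'
    rw [Finset.mem_image] at hU'
    obtain ⟨W, _, rfl⟩ := hU'
    have := (mem_powersetCard.mp hU).1 (mem_insert_self k W)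
    simp at this

lemma T_le (s : ℝ) : ∀ (k m : ℕ), |s| * k ≤ 1 →
    T s k m ≤ (k.choose m : ℝ) * Real.exp (s * m * (k - 1) / 2 + s ^ 2 * k ^ 3 / 4) := by
  intro k
  induction k with
  | zero =>
    intro m _
    cases m with
    | zero => simp [T_zero_right]
    | succ m => simp [T_zero_succ]
  | succ k ih =>
    intro m hs
    cases m with
    | zero =>
      rw [T_zero_right]
      simp only [Nat.choose_zero_right, Nat.cast_one, one_mul]
      apply Real.one_le_exp
      simp only [Nat.cast_zero, mul_zero, zero_mul, zero_div, zero_add]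
      positivity
    | succ m =>
      have hk0 : (0 : ℝ) ≤ k := Nat.cast_nonneg k
      have hm0 : (0 : ℝ) ≤ m := Nat.cast_nonneg m
      push_cast at hs
      have hs' : |s| * k ≤ 1 := by
        have : 0 ≤ |s| := abs_nonneg s
        nlinarith
      rcases Nat.lt_or_ge k m with hkm | hkm
      · have h1 : (k + 1).choose (m + 1) = 0 := Nat.choose_eq_zero_of_lt (by omega)
        have h2 : T s (k + 1) (m + 1) = 0 := by
          unfold T
          rw [Finset.powersetCard_eq_empty.mpr (by simp; omega)]
          simp
        rw [h1, h2]; simp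
      · have hkm' : (m : ℝ) ≤ k := by exact_mod_cast hkm
        rw [T_succ_succ]
        have i1 := ih (m + 1) hs'
        have i2 := ih m hs'
        -- the two binomial coefficients as fractions of the next one
        set C : ℝ := ((k + 1).choose (m + 1) : ℝ) with hC
        have hC0 : 0 ≤ C := Nat.cast_nonneg _
        have e1 : ((k.choose m : ℕ) : ℝ) = C * ((m + 1) / (k + 1)) := by
          have := Nat.add_one_mul_choose_eq k m
          have h' : ((k : ℝ) + 1) * (k.choose m : ℝ) = C * (m + 1) := by
            rw [hC]; exact_mod_cast this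
          field_simp
          linarith
        have e2 : ((k.choose (m + 1) : ℕ) : ℝ) = C * (1 - (m + 1) / (k + 1)) := by
          have h' : C = (k.choose m : ℝ) + (k.choose (m + 1) : ℝ) := by
            rw [hC, Nat.choose_succ_succ]; push_cast; ring
          rw [e1] at h'
          linarith
        set p : ℝ := ((m : ℝ) + 1) / (k + 1) with hp
        have hp0 : 0 ≤ p := by positivity
        have hp1 : p ≤ 1 := by
          rw [hp, div_le_one (by positivity)]
          linarith
        set E : ℝ := Real.exp (s * (m + 1) * k / 2 + s ^ 2 * k ^ 3 / 4) with hE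
        have hE0 : 0 < E := Real.exp_pos _
        have f1 : Real.exp (s * ((m + 1 : ℕ) : ℝ) * (k - 1) / 2 + s ^ 2 * k ^ 3 / 4)
            = E * Real.exp (-(s * (m + 1) / 2)) := by
          rw [hE, ← Real.exp_add]
          congr 1
          push_cast
          ring
        have f2 : Real.exp (s * k) * Real.exp (s * (m : ℝ) * (k - 1) / 2 + s ^ 2 * k ^ 3 / 4)
            = E * Real.exp (s * (k - m) / 2) := by
          rw [hE, ← Real.exp_add, ← Real.exp_add]
          congr 1
          ring
        have key : (1 - p) * Real.exp (-(s * (m + 1) / 2)) + p * Real.exp (s * (k - m) / 2)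
            ≤ Real.exp (s ^ 2 * (k + 1) ^ 2 / 4) := by
          have habs := abs_le.mp (show |s * (k + 1)| ≤ 1 by
            rw [abs_mul, abs_of_nonneg (by positivity : (0 : ℝ) ≤ (k : ℝ) + 1)]; exact hs)
          have a1 : |-(s * (m + 1) / 2)| ≤ 1 := by
            rw [abs_neg, abs_div, abs_mul, abs_of_nonneg (by positivity : (0 : ℝ) ≤ (m : ℝ) + 1)]
            have : |s| * (m + 1) ≤ |s| * (k + 1) := by
              apply mul_le_mul_of_nonneg_left _ (abs_nonneg s)
              linarith
            simp only [Nat.abs_ofNat]
            linarith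
          have a2 : |s * (k - m) / 2| ≤ 1 := by
            rw [abs_div, abs_mul, abs_of_nonneg (by linarith : (0 : ℝ) ≤ (k : ℝ) - m)]
            have : |s| * (k - m) ≤ |s| * (k + 1) := by
              apply mul_le_mul_of_nonneg_left _ (abs_nonneg s)
              linarith
            simp only [Nat.abs_ofNat]
            linarith
          have b1 := exp_le_quad a1
          have b2 := exp_le_quad a2
          have hpk : p * (k + 1) = m + 1 := by
            rw [hp]; field_simp
          have mean : (1 - p) * (-(s * (m + 1) / 2)) + p * (s * (k - m) / 2) = 0 := by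
            have : (1 - p) * (-(s * (m + 1) / 2)) + p * (s * (k - m) / 2)
              = s / 2 * (p * (k + 1) - (m + 1)) := by ring
            rw [this, hpk]; ring
          have sq1 : (-(s * (m + 1) / 2)) ^ 2 ≤ s ^ 2 * (k + 1) ^ 2 / 4 := by
            have : ((m : ℝ) + 1) ^ 2 ≤ (k + 1) ^ 2 := by
              apply pow_le_pow_left₀ (by positivity); linarith
            have h2 : 0 ≤ s ^ 2 := sq_nonneg s
            nlinarith
          have sq2 : (s * (k - m) / 2) ^ 2 ≤ s ^ 2 * (k + 1) ^ 2 / 4 := by
            have : ((k : ℝ) - m) ^ 2 ≤ (k + 1) ^ 2 := by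
              apply pow_le_pow_left₀ (by linarith); linarith
            have h2 : 0 ≤ s ^ 2 := sq_nonneg s
            nlinarith
          have hlast := Real.add_one_le_exp (s ^ 2 * (k + 1) ^ 2 / 4)
          have c1 : (1 - p) * Real.exp (-(s * (m + 1) / 2)) ≤
              (1 - p) * (1 + (-(s * (m + 1) / 2)) + s ^ 2 * (k + 1) ^ 2 / 4) := by
            apply mul_le_mul_of_nonneg_left _ (by linarith)
            linarith
          have c2 : p * Real.exp (s * (k - m) / 2) ≤
              p * (1 + (s * (k - m) / 2) + s ^ 2 * (k + 1) ^ 2 / 4) := by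
            apply mul_le_mul_of_nonneg_left _ hp0
            linarith
          have c3 : (1 - p) * (1 + (-(s * (m + 1) / 2)) + s ^ 2 * (k + 1) ^ 2 / 4)
              + p * (1 + (s * (k - m) / 2) + s ^ 2 * (k + 1) ^ 2 / 4)
              = 1 + s ^ 2 * (k + 1) ^ 2 / 4 := by linear_combination mean
          linarith
        calc T s k (m + 1) + Real.exp (s * k) * T s k m
            ≤ (C * (1 - p)) * (E * Real.exp (-(s * (m + 1) / 2)))
              + Real.exp (s * k) * ((C * p) *
                Real.exp (s * (m : ℝ) * (k - 1) / 2 + s ^ 2 * k ^ 3 / 4)) := by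
              rw [e2, f1] at i1
              rw [e1] at i2
              have := mul_le_mul_of_nonneg_left i2 (Real.exp_pos (s * k)).le
              linarith
          _ = C * E * ((1 - p) * Real.exp (-(s * (m + 1) / 2)) + p *
                Real.exp (s * (k - m) / 2)) := by
              have : Real.exp (s * k) * ((C * p) *
                Real.exp (s * (m : ℝ) * (k - 1) / 2 + s ^ 2 * k ^ 3 / 4))
                = C * p * (Real.exp (s * k) *
                  Real.exp (s * (m : ℝ) * (k - 1) / 2 + s ^ 2 * k ^ 3 / 4)) := by ring
              rw [this, f2]; ring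
          _ ≤ C * E * Real.exp (s ^ 2 * (k + 1) ^ 2 / 4) := by
              apply mul_le_mul_of_nonneg_left key (by positivity)
          _ ≤ C * Real.exp (s * ((m + 1 : ℕ) : ℝ) * (((k + 1 : ℕ) : ℝ) - 1) / 2
                + s ^ 2 * ((k + 1 : ℕ) : ℝ) ^ 3 / 4) := by
              rw [mul_assoc, hE, ← Real.exp_add]
              apply mul_le_mul_of_nonneg_left _ hC0
              apply Real.exp_le_exp.mpr
              push_cast
              have h2 : 0 ≤ s ^ 2 := sq_nonneg s
              have h3 : (k : ℝ) ^ 3 + (k + 1) ^ 2 ≤ (k + 1) ^ 3 := by nlinarith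
              nlinarith

end Pool.Agent.Lib.MP_91d3dc_co
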