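import Mathlib

set_option autoImplicit false

namespace Pool.Agent.Lib.MP_91d3dc_co

open Finset

variable {α : Type} [DecidableEq α]

/-- all orderings of a finite set, as lists. -/
def ords (S : Finset α) : Finset (List α) := ⟨Multiset.lists S.val, Multiset.lists_nodup_finset S⟩

lemma mem_ords {S : Finset α} {w : List α} : w ∈ ords S ↔ S.val = (w : Multiset α) := by
  unfold ords
  rw [Finset.mem_mk, Multiset.mem_lists_iff]
  rfl

lemma ords_empty : ords (∅ : Finset α) = {[]} := by
  ext w
  rw [mem_ords, Finset.mem_singleton]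
  constructor
  · intro h
    have : (w : Multiset α) = 0 := by rw [← h]; rfl
    simpa using this
  · rintro rfl
    rfl

lemma cons_mem_ords {S : Finset α} {u : α} {w : List α} :
    u :: w ∈ ords S ↔ u ∈ S ∧ w ∈ ords (S.erase u) := by
  rw [mem_ords, mem_ords, Finset.erase_val]
  constructor
  · intro h
    have hu : u ∈ S := by
      rw [← Finset.mem_val, h]
      simp
    refine ⟨hu, ?_⟩
    rw [h, ← Multiset.cons_coe, Multiset.erase_cons_head]
  · rintro ⟨hu, h⟩
    rw [← Multiset.cons_coe, ← h]
    exact (Multiset.cons_erase (Finset.mem_val.mpr hu)).symm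

lemma sum_ords {S : Finset α} (hS : S.Nonempty) (f : List α → ℝ) :
    ∑ w ∈ ords S, f w = ∑ u ∈ S, ∑ w ∈ ords (S.erase u), f (u :: w) := by
  rw [Finset.sum_sigma']
  symm
  refine Finset.sum_bij (fun (x : (_ : α) × List α) _ => x.1 :: x.2) ?_ ?_ ?_ ?_
  · rintro ⟨u, w⟩ h
    rw [Finset.mem_sigma] at h
    exact cons_mem_ords.mpr h
  · rintro ⟨u, w⟩ h ⟨u', w'⟩ h' heq
    simp only [List.cons.injEq] at heq
    obtain ⟨rfl, rfl⟩ := heq
    rfl
  · intro w hw
    cases w with
    | nil =>
      rw [mem_ords] at hw
      exfalso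
      have : S = ∅ := by
        rw [← Finset.val_eq_zero]
        rw [hw]; rfl
      exact hS.ne_empty this
    | cons u w =>
      refine ⟨⟨u, w⟩, ?_, rfl⟩
      rw [Finset.mem_sigma]
      exact cons_mem_ords.mp hw
  · rintro ⟨u, w⟩ h
    rfl

lemma card_ords (S : Finset α) : (∑ _w ∈ ords S, (1 : ℝ)) = (S.card.factorial : ℝ) := by
  induction' hn : S.card with n ih generalizing S
  · have : S = ∅ := Finset.card_eq_zero.mp hn
    subst this
    simp [ords_empty]
  · have hS : S.Nonempty := by
      rw [← Finset.card_pos]; omega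
    rw [sum_ords hS]
    have : ∀ u ∈ S, ∑ _w ∈ ords (S.erase u), (1 : ℝ) = (n.factorial : ℝ) := by
      intro u hu
      apply ih
      rw [Finset.card_erase_of_mem hu]; omega
    rw [Finset.sum_congr rfl this, Finset.sum_const, hn, nsmul_eq_mul, Nat.factorial_succ]
    push_cast
    ring

/-- The weighted number of pairs (bad set, ordering through it). -/
lemma bad_erase_le (S : Finset α) (P : Finset α → Prop) [DecidablePred P] :
    ∑ u ∈ S, ∑ U ∈ (S.erase u).powerset,
      (if P U then ((U.card.factorial : ℝ) * (((S.erase u).card - U.card).factorial : ℝ)) else 0)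
    ≤ ∑ U ∈ S.powerset,
      (if P U then ((U.card.factorial : ℝ) * ((S.card - U.card).factorial : ℝ)) else 0) := by
  have hcomm : ∑ u ∈ S, ∑ U ∈ (S.erase u).powerset,
      (if P U then ((U.card.factorial : ℝ) * (((S.erase u).card - U.card).factorial : ℝ)) else 0)
      = ∑ U ∈ S.powerset, ∑ u ∈ S \ U,
      (if P U then ((U.card.factorial : ℝ) * (((S.erase u).card - U.card).factorial : ℝ))
        else 0) := by
    apply Finset.sum_comm'
    intro u U
    simp only [Finset.mem_powerset, Finset.mem_sdiff]
    constructor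
    · rintro ⟨hu, hU⟩
      refine ⟨⟨hu, fun h => ?_⟩, hU.trans (Finset.erase_subset _ _)⟩
      exact (Finset.notMem_erase u S) (hU h)
    · rintro ⟨⟨hu, hnU⟩, hU⟩
      exact ⟨hu, Finset.subset_erase.mpr ⟨hU, hnU⟩⟩
  rw [hcomm]
  apply Finset.sum_le_sum
  intro U hU
  rw [Finset.mem_powerset] at hU
  split_ifs with h
  · have hc : (S \ U).card = S.card - U.card := Finset.card_sdiff_of_subset hU
    have hle : U.card ≤ S.card := Finset.card_le_card hU
    have : ∀ u ∈ S \ U, ((U.card.factorial : ℝ) *
        (((S.erase u).card - U.card).factorial : ℝ))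
        = (U.card.factorial : ℝ) * ((S.card - U.card - 1).factorial : ℝ) := by
      intro u hu
      rw [Finset.card_erase_of_mem (Finset.mem_sdiff.mp hu).1]
      congr 3
      omega
    rw [Finset.sum_congr rfl this, Finset.sum_const, hc, nsmul_eq_mul]
    rcases Nat.eq_zero_or_pos (S.card - U.card) with h0 | h0
    · rw [h0]; simp
    · have : ((S.card - U.card).factorial : ℝ)
          = ((S.card - U.card : ℕ) : ℝ) * ((S.card - U.card - 1).factorial : ℝ) := by
        obtain ⟨t, ht⟩ : ∃ t, S.card - U.card = t + 1 := ⟨S.card - U.card - 1, by omega⟩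
        rw [ht, Nat.factorial_succ]
        push_cast
        simp
      rw [this]
      apply le_of_eq
      ring
  · simp

end Pool.Agent.Lib.MP_91d3dc_co
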