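import Mathlib
import Pool.Agent.Lib.MP_91d3dc_co.Moments

set_option autoImplicit false

namespace Pool.Agent.Lib.MP_91d3dc_co

open Finset

lemma sum_subsets_le {k : ℕ} (c : Fin k → ℕ) (hc : Set.BijOn c Set.univ (Set.Icc 1 k))
    (s : ℝ) (hs : |s| * k ≤ 1) (m : ℕ) :
    ∑ U ∈ powersetCard m (univ : Finset (Fin k)), Real.exp (s * ∑ u ∈ U, (c u : ℝ))
      ≤ (k.choose m : ℝ) * Real.exp (s * m * (k + 1) / 2 + s ^ 2 * k ^ 3 / 4) := by
  classical
  have hpos : ∀ u, 1 ≤ c u := fun u => (hc.mapsTo (Set.mem_univ u)).1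
  have hle : ∀ u, c u ≤ k := fun u => (hc.mapsTo (Set.mem_univ u)).2
  let f : Fin k ↪ ℕ := ⟨fun u => c u - 1, fun u v h => by
    have h1 := hpos u
    have h2 := hpos v
    have h' : c u - 1 = c v - 1 := h
    exact hc.injOn (Set.mem_univ u) (Set.mem_univ v) (by omega)⟩
  have hf : ∀ u, (c u : ℝ) = (f u : ℝ) + 1 := by
    intro u
    have h1 := hpos u
    have : c u = f u + 1 := by
      change c u = (c u - 1) + 1
      omega
    rw [this]; push_cast; ring
  have himg : (univ : Finset (Fin k)).map f = range k := by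
    apply Finset.eq_of_subset_of_card_le
    · intro x hx
      rw [Finset.mem_map] at hx
      obtain ⟨u, _, rfl⟩ := hx
      have h1 := hpos u
      have h2 := hle u
      change c u - 1 ∈ range k
      rw [Finset.mem_range]
      omega
    · rw [Finset.card_map]; simp
  have e1 : ∑ U ∈ powersetCard m (univ : Finset (Fin k)), Real.exp (s * ∑ u ∈ U, (c u : ℝ))
      = Real.exp (s * m) * T s k m := by
    unfold T
    rw [← himg, Finset.powersetCard_map, Finset.sum_map, Finset.mul_sum]
    refine Finset.sum_congr rfl fun U hU => ?_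
    have hcard : U.card = m := (mem_powersetCard.mp hU).2
    have : ∑ u ∈ U, (c u : ℝ) = ∑ u ∈ U, (f u : ℝ) + m := by
      rw [Finset.sum_congr rfl (fun u _ => hf u), Finset.sum_add_distrib]
      simp [hcard]
    rw [this, ← Real.exp_add]
    congr 1
    simp only [RelEmbedding.coe_toEmbedding, Finset.mapEmbedding_apply, Finset.sum_map]
    ring
  rw [e1]
  have h := T_le s k m hs
  calc Real.exp (s * m) * T s k m
      ≤ Real.exp (s * m) * ((k.choose m : ℝ) *
          Real.exp (s * m * (k - 1) / 2 + s ^ 2 * k ^ 3 / 4)) :=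
        mul_le_mul_of_nonneg_left h (Real.exp_pos _).le
    _ = (k.choose m : ℝ) * (Real.exp (s * m) *
          Real.exp (s * m * (k - 1) / 2 + s ^ 2 * k ^ 3 / 4)) := by ring
    _ = _ := by
        rw [← Real.exp_add]
        congr 2
        ring

/-- `U` is bad when some state has too small a total cost on `U`. -/
def Bad {k : ℕ} {V : Type} (c : V → Fin k → ℕ) (Δ : ℝ) (U : Finset (Fin k)) : Prop :=
  ∃ v, ∑ u ∈ U, (c v u : ℝ) < (U.card : ℝ) * (((k : ℝ) + 1) / 2) - Δ

open Classical in
lemma bad_sum_le {k : ℕ} {V : Type} [Fintype V] (c : V → Fin k → ℕ)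
    (hc : ∀ v, Set.BijOn (c v) Set.univ (Set.Icc 1 k)) (s Δ : ℝ) (hs0 : 0 ≤ s)
    (hs : s * k ≤ 1) :
    ∑ U ∈ (univ : Finset (Fin k)).powerset,
      (if Bad c Δ U then ((U.card.factorial : ℝ) * ((k - U.card).factorial : ℝ)) else 0)
      ≤ (Fintype.card V : ℝ) * ((k : ℝ) + 1) * (k.factorial : ℝ)
        * Real.exp (-(s * Δ) + s ^ 2 * k ^ 3 / 4) := by
  have step1 : ∀ U ∈ (univ : Finset (Fin k)).powerset,
      (if Bad c Δ U then ((U.card.factorial : ℝ) * ((k - U.card).factorial : ℝ)) else 0)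
      ≤ ∑ v : V, ((U.card.factorial : ℝ) * ((k - U.card).factorial : ℝ)) *
          Real.exp (s * ((U.card : ℝ) * (((k : ℝ) + 1) / 2) - Δ - ∑ u ∈ U, (c v u : ℝ))) := by
    intro U _
    have hnn : ∀ v : V, 0 ≤ ((U.card.factorial : ℝ) * ((k - U.card).factorial : ℝ)) *
          Real.exp (s * ((U.card : ℝ) * (((k : ℝ) + 1) / 2) - Δ - ∑ u ∈ U, (c v u : ℝ))) := by
      intro v; positivity
    split_ifs with hb
    · obtain ⟨v, hv⟩ := hb
      have h1 : (1 : ℝ) ≤ Real.exp (s * ((U.card : ℝ) * (((k : ℝ) + 1) / 2) - Δ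
          - ∑ u ∈ U, (c v u : ℝ))) := by
        apply Real.one_le_exp
        apply mul_nonneg hs0
        linarith
      calc ((U.card.factorial : ℝ) * ((k - U.card).factorial : ℝ))
          ≤ ((U.card.factorial : ℝ) * ((k - U.card).factorial : ℝ)) *
            Real.exp (s * ((U.card : ℝ) * (((k : ℝ) + 1) / 2) - Δ
              - ∑ u ∈ U, (c v u : ℝ))) := by
            apply le_mul_of_one_le_right (by positivity) h1
        _ ≤ _ := Finset.single_le_sum (f := fun v => ((U.card.factorial : ℝ) *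
            ((k - U.card).factorial : ℝ)) * Real.exp (s * ((U.card : ℝ) *
            (((k : ℝ) + 1) / 2) - Δ - ∑ u ∈ U, (c v u : ℝ)))) (fun v _ => hnn v)
            (Finset.mem_univ v)
    · exact Finset.sum_nonneg fun v _ => hnn v
  refine (Finset.sum_le_sum step1).trans ?_
  rw [Finset.sum_comm]
  have step2 : ∀ v : V, ∑ U ∈ (univ : Finset (Fin k)).powerset,
      ((U.card.factorial : ℝ) * ((k - U.card).factorial : ℝ)) *
          Real.exp (s * ((U.card : ℝ) * (((k : ℝ) + 1) / 2) - Δ - ∑ u ∈ U, (c v u : ℝ)))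
      ≤ ((k : ℝ) + 1) * ((k.factorial : ℝ) * Real.exp (-(s * Δ) + s ^ 2 * k ^ 3 / 4)) := by
    intro v
    rw [Finset.sum_powerset]
    simp only [Finset.card_univ, Fintype.card_fin]
    have : ∀ m ∈ range (k + 1), ∑ U ∈ powersetCard m (univ : Finset (Fin k)),
        ((U.card.factorial : ℝ) * ((k - U.card).factorial : ℝ)) *
          Real.exp (s * ((U.card : ℝ) * (((k : ℝ) + 1) / 2) - Δ - ∑ u ∈ U, (c v u : ℝ)))
        ≤ (k.factorial : ℝ) * Real.exp (-(s * Δ) + s ^ 2 * k ^ 3 / 4) := by
      intro m hm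
      have hmk : m ≤ k := by
        have := Finset.mem_range.mp hm
        omega
      have e : ∑ U ∈ powersetCard m (univ : Finset (Fin k)),
        ((U.card.factorial : ℝ) * ((k - U.card).factorial : ℝ)) *
          Real.exp (s * ((U.card : ℝ) * (((k : ℝ) + 1) / 2) - Δ - ∑ u ∈ U, (c v u : ℝ)))
        = (((m.factorial : ℝ) * ((k - m).factorial : ℝ)) *
          Real.exp (s * ((m : ℝ) * (((k : ℝ) + 1) / 2) - Δ))) *
          ∑ U ∈ powersetCard m (univ : Finset (Fin k)),
            Real.exp ((-s) * ∑ u ∈ U, (c v u : ℝ)) := by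
        rw [Finset.mul_sum]
        refine Finset.sum_congr rfl fun U hU => ?_
        have hcard : U.card = m := (mem_powersetCard.mp hU).2
        have hexp : Real.exp (s * ((m : ℝ) * (((k : ℝ) + 1) / 2) - Δ - ∑ u ∈ U, (c v u : ℝ)))
            = Real.exp (s * ((m : ℝ) * (((k : ℝ) + 1) / 2) - Δ)) *
              Real.exp ((-s) * ∑ u ∈ U, (c v u : ℝ)) := by
          rw [← Real.exp_add]
          congr 1
          ring
        rw [hcard, hexp]
        ring
      rw [e]
      have hb := sum_subsets_le (c v) (hc v) (-s) (by rw [abs_neg, abs_of_nonneg hs0]; exact hs) m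
      have hchoose : (k.choose m : ℝ) * ((m.factorial : ℝ) * ((k - m).factorial : ℝ))
          = (k.factorial : ℝ) := by
        have := Nat.choose_mul_factorial_mul_factorial hmk
        rw [← mul_assoc]
        exact_mod_cast this
      calc (((m.factorial : ℝ) * ((k - m).factorial : ℝ)) *
          Real.exp (s * ((m : ℝ) * (((k : ℝ) + 1) / 2) - Δ))) *
          ∑ U ∈ powersetCard m (univ : Finset (Fin k)),
            Real.exp ((-s) * ∑ u ∈ U, (c v u : ℝ))
          ≤ (((m.factorial : ℝ) * ((k - m).factorial : ℝ)) *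
          Real.exp (s * ((m : ℝ) * (((k : ℝ) + 1) / 2) - Δ))) *
          ((k.choose m : ℝ) * Real.exp ((-s) * m * (k + 1) / 2 + (-s) ^ 2 * k ^ 3 / 4)) :=
            mul_le_mul_of_nonneg_left hb (by positivity)
        _ = ((k.choose m : ℝ) * ((m.factorial : ℝ) * ((k - m).factorial : ℝ))) *
          (Real.exp (s * ((m : ℝ) * (((k : ℝ) + 1) / 2) - Δ)) *
            Real.exp ((-s) * m * (k + 1) / 2 + (-s) ^ 2 * k ^ 3 / 4)) := by ring
        _ = (k.factorial : ℝ) * Real.exp (-(s * Δ) + s ^ 2 * k ^ 3 / 4) := by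
            rw [hchoose, ← Real.exp_add]
            congr 2
            ring
    refine (Finset.sum_le_sum this).trans ?_
    rw [Finset.sum_const, Finset.card_range, nsmul_eq_mul]
    push_cast
    exact le_refl _
  refine (Finset.sum_le_sum fun v _ => step2 v).trans ?_
  rw [Finset.sum_const, Finset.card_univ, nsmul_eq_mul]
  apply le_of_eq
  ring

end Pool.Agent.Lib.MP_91d3dc_co
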